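import Pool.Agent.H67.HM.Stm

/-!
# HM, part WW: block averages
-/

set_option autoImplicit false

open MeasureTheory Filter Topology

namespace Pool.Agent.H37.HM

open _root_.HM

/-- the integrand of the block averages -/
noncomputable def GG (p : ENNReal) (δ : ℝ) (f : ℝ → ℂ) (x : ℝ) : ℂ :=
  (((δ * x) ^ (-(1 - 1 / p.toReal)) : ℝ) : ℂ) * f x

theorem wfun_eq (p : ENNReal) (δ : ℝ) (hδ : 0 < δ) (f : ℝ → ℂ) :
    wfun p δ f = ∫ x in Real.exp (-δ)..1, GG p δ f x := by
  have h1 : Real.exp (-δ) ≤ 1 := Real.exp_le_one_iff.2 (by linarith)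
  rw [intervalIntegral.integral_of_le h1]
  rfl

theorem wfun_tfun (p : ENNReal) (hP : 1 < p.toReal) (δ r : ℝ) (hδ : 0 < δ) (f : ℝ → ℂ) :
    wfun p δ (tfun p r f) = ∫ x in Real.exp (-(r + δ))..Real.exp (-r), GG p δ f x := by
  have hP0 : p.toReal ≠ 0 := by linarith
  have h1 : Real.exp (-δ) ≤ 1 := Real.exp_le_one_iff.2 (by linarith)
  rw [wfun_eq p δ hδ]
  have e1 : ∫ x in Real.exp (-δ)..1, GG p δ (tfun p r f) x =
      ∫ x in Real.exp (-δ)..1, (Real.exp (-r)) • GG p δ f (Real.exp (-r) * x) := by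
    apply intervalIntegral.integral_congr
    intro x hx
    rw [Set.uIcc_of_le h1] at hx
    have hx0 : 0 < x := lt_of_lt_of_le (Real.exp_pos _) hx.1
    have e2 : (δ * x) ^ (-(1 - 1 / p.toReal)) * Real.exp (-(r / p.toReal)) =
        Real.exp (-r) * (δ * (Real.exp (-r) * x)) ^ (-(1 - 1 / p.toReal)) := by
      rw [show δ * (Real.exp (-r) * x) = Real.exp (-r) * (δ * x) by ring,
        Real.mul_rpow (Real.exp_pos _).le (by positivity), ← Real.exp_mul, ← mul_assoc,
        ← Real.exp_add, mul_comm]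
      congr 2
      field_simp
      ring
    simp only [GG, tfun, Complex.real_smul]
    rw [← mul_assoc, ← mul_assoc, ← Complex.ofReal_mul, ← Complex.ofReal_mul, e2]
  rw [e1, intervalIntegral.integral_smul, intervalIntegral.integral_comp_mul_left _
    (Real.exp_pos (-r)).ne', smul_smul, mul_inv_cancel₀ (Real.exp_pos (-r)).ne', one_smul, mul_one,
    ← Real.exp_add]
  congr 2
  ring

theorem memLp_block (p : ENNReal) (f : ℝ → ℂ) (hf : MemLp f p mu) (a b : ℝ) (ha : 0 < a)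
    (hb : b ≤ 1) : MemLp f p (volume.restrict (Set.Ioc a b)) := by
  apply hf.mono_measure
  rw [mu]
  apply Measure.restrict_mono _ le_rfl
  intro x hx
  exact ⟨(ha.trans hx.1).le, hx.2.trans hb⟩

theorem integrable_block (p : ENNReal) [Fact (1 ≤ p)] (f : ℝ → ℂ) (hf : MemLp f p mu) (δ a b : ℝ)
    (hδ : 0 < δ) (ha : 0 < a) (hab : a ≤ b) (hb : b ≤ 1) :
    IntervalIntegrable (GG p δ f) volume a b := by
  have h1 : IntervalIntegrable f volume a b := by
    rw [intervalIntegrable_iff_integrableOn_Ioc_of_le hab]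
    exact (memLp_block p f hf a b ha hb).integrable Fact.out
  have h2 : ContinuousOn (fun x : ℝ => (((δ * x) ^ (-(1 - 1 / p.toReal)) : ℝ) : ℂ)) (Set.uIcc a b) := by
    apply Complex.continuous_ofReal.comp_continuousOn
    apply ContinuousOn.rpow_const (by fun_prop)
    intro x hx
    rw [Set.uIcc_of_le hab] at hx
    left
    have : 0 < x := lt_of_lt_of_le ha hx.1
    positivity
  exact h1.continuousOn_mul h2

theorem integrable_rpow (p : ENNReal) [Fact (1 ≤ p)] (hp : p < ⊤) (f : ℝ → ℂ) (hf : MemLp f p mu) :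
    IntegrableOn (fun x => ‖f x‖ ^ p.toReal) (Set.Icc 0 1) volume := by
  have h0 : p ≠ 0 := by
    have : (1 : ENNReal) ≤ p := Fact.out
    exact (lt_of_lt_of_le one_pos this).ne'
  exact hf.integrable_norm_rpow h0 hp.ne

/-- Hölder on a block -/
theorem block_bound (p : ENNReal) [Fact (1 ≤ p)] (hp1 : 1 < p) (hp : p < ⊤) (f : ℝ → ℂ)
    (hf : MemLp f p mu) (δ a b : ℝ) (hδ : 0 < δ) (ha : 0 < a) (hab : b = a * Real.exp δ) (hb : b ≤ 1) :
    ‖∫ x in a..b, GG p δ f x‖ ^ p.toReal ≤ ∫ x in a..b, ‖f x‖ ^ p.toReal := by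
  obtain ⟨P, hPdef⟩ : ∃ P : ℝ, P = p.toReal := ⟨_, rfl⟩
  have hP1 : 1 < P := by
    rw [hPdef, ← ENNReal.toReal_one]
    exact (ENNReal.toReal_lt_toReal ENNReal.one_ne_top hp.ne).2 hp1
  have hpP : ENNReal.ofReal P = p := by rw [hPdef]; exact ENNReal.ofReal_toReal hp.ne
  have hle : a ≤ b := by
    rw [hab]
    have : 1 ≤ Real.exp δ := Real.one_le_exp hδ.le
    nlinarith
  have hq := (Real.HolderConjugate.conjExponent hP1).symm
  obtain ⟨q, hqdef⟩ : ∃ q : ℝ, q = P.conjExponent := ⟨_, rfl⟩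
  rw [← hqdef] at hq
  have hq1 : 1 < q := hq.lt
  have hexp : -(1 - 1 / P) * q = -1 := by
    rw [hqdef, Real.conjExponent]
    have : P - 1 ≠ 0 := by linarith
    have : P ≠ 0 := by linarith
    field_simp
  rw [← hPdef]
  obtain ⟨g, hg⟩ : ∃ g : ℝ → ℂ, g = fun x : ℝ => (((δ * x) ^ (-(1 - 1 / P)) : ℝ) : ℂ) := ⟨_, rfl⟩
  have hGG : ∀ x, GG p δ f x = g x * f x := by
    intro x; rw [GG, hg, ← hPdef]
  have hgc : ContinuousOn g (Set.Icc a b) := by
    rw [hg]
    apply Complex.continuous_ofReal.comp_continuousOn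
    apply ContinuousOn.rpow_const (by fun_prop)
    intro x hx
    left
    have : 0 < x := lt_of_lt_of_le ha hx.1
    positivity
  have hgm : MemLp g (ENNReal.ofReal q) (volume.restrict (Set.Ioc a b)) := by
    obtain ⟨C, hC⟩ := isCompact_Icc.exists_bound_of_continuousOn hgc
    apply MemLp.of_bound (C := C)
    · exact (hgc.mono Set.Ioc_subset_Icc_self).aestronglyMeasurable measurableSet_Ioc
    · apply (ae_restrict_iff' measurableSet_Ioc).2
      exact Eventually.of_forall fun x hx => hC x (Set.Ioc_subset_Icc_self hx)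
  have hfm : MemLp f (ENNReal.ofReal P) (volume.restrict (Set.Ioc a b)) := by
    rw [hpP]; exact memLp_block p f hf a b ha hb
  have hH := integral_mul_norm_le_Lp_mul_Lq hq hgm hfm
  have hI1 : ∫ x in Set.Ioc a b, ‖g x‖ ^ q = 1 := by
    have e1 : ∫ x in Set.Ioc a b, ‖g x‖ ^ q = ∫ x in Set.Ioc a b, δ⁻¹ * x⁻¹ := by
      apply setIntegral_congr_fun measurableSet_Ioc
      intro x hx
      have hx0 : 0 < x := ha.trans hx.1
      have hdx : 0 < δ * x := by positivity
      simp only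
      rw [hg]
      simp only [Complex.norm_real]
      rw [Real.norm_of_nonneg (by positivity), ← Real.rpow_mul hdx.le, hexp, Real.rpow_neg_one,
        mul_inv]
    rw [e1, ← intervalIntegral.integral_of_le hle, intervalIntegral.integral_const_mul,
      integral_inv_of_pos ha (lt_of_lt_of_le ha hle), hab, mul_div_cancel_left₀ _ ha.ne',
      Real.log_exp, inv_mul_cancel₀ hδ.ne']
  rw [hI1, Real.one_rpow, one_mul] at hH
  have h1 : ‖∫ x in a..b, GG p δ f x‖ ≤ (∫ x in Set.Ioc a b, ‖f x‖ ^ P) ^ (1 / P) := by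
    rw [intervalIntegral.integral_of_le hle]
    refine (norm_integral_le_integral_norm _).trans (le_trans (le_of_eq ?_) hH)
    apply integral_congr_ae
    exact Eventually.of_forall fun x => by simp only [hGG, norm_mul]
  have h0 : 0 ≤ ∫ x in Set.Ioc a b, ‖f x‖ ^ P :=
    integral_nonneg fun x => by positivity
  have h2 := Real.rpow_le_rpow (norm_nonneg _) h1 (show (0 : ℝ) ≤ P by linarith)
  rw [← Real.rpow_mul h0, one_div, inv_mul_cancel₀ (by linarith), Real.rpow_one] at h2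
  rw [intervalIntegral.integral_of_le hle (f := fun x => ‖f x‖ ^ P)]
  exact h2

/-- the sum over blocks -/
theorem sum_bound (p : ENNReal) [Fact (1 ≤ p)] (hp1 : 1 < p) (hp : p < ⊤) (f : ℝ → ℂ)
    (hf : MemLp f p mu) (δ : ℝ) (hδ : 0 < δ) (k n : ℕ) :
    ∑ j ∈ Finset.range n, ‖wfun p δ (tfun p ((k + j : ℕ) * δ) f)‖ ^ p.toReal ≤
      ∫ x in Set.Ioc (0 : ℝ) (Real.exp (-(k * δ))), ‖f x‖ ^ p.toReal := by
  have hP1 : 1 < p.toReal := by
    rw [← ENNReal.toReal_one]
    exact (ENNReal.toReal_lt_toReal ENNReal.one_ne_top hp.ne).2 hp1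
  obtain ⟨a, ha⟩ : ∃ a : ℕ → ℝ, a = fun j => Real.exp (-(((k + j : ℕ) : ℝ) * δ)) := ⟨_, rfl⟩
  have hapos : ∀ j, 0 < a j := fun j => by rw [ha]; exact Real.exp_pos _
  have ha1 : ∀ j, a j ≤ 1 := by
    intro j
    have h0 : (0:ℝ) ≤ ((k + j : ℕ) : ℝ) * δ := by positivity
    rw [ha]
    exact Real.exp_le_one_iff.2 (by linarith)
  have hstep : ∀ j, a j = a (j + 1) * Real.exp δ := by
    intro j
    rw [ha]
    simp only
    rw [← Real.exp_add]
    congr 1
    push_cast
    ring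
  have hint : IntegrableOn (fun x => ‖f x‖ ^ p.toReal) (Set.Icc 0 1) volume :=
    integrable_rpow p hp f hf
  have hanti : ∀ i j, i ≤ j → a j ≤ a i := by
    intro i j hij
    rw [ha]
    simp only
    apply Real.exp_le_exp.2
    have : (((k + i : ℕ) : ℝ)) ≤ ((k + j : ℕ) : ℝ) := by exact_mod_cast Nat.add_le_add_left hij k
    nlinarith
  have hII : ∀ i j, i ≤ j → IntervalIntegrable (fun x => ‖f x‖ ^ p.toReal) volume (a j) (a i) := by
    intro i j hij
    rw [intervalIntegrable_iff_integrableOn_Ioc_of_le (hanti i j hij)]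
    apply hint.mono_set
    intro x hx
    exact ⟨((hapos j).trans hx.1).le, hx.2.trans (ha1 i)⟩
  have h1 : ∀ j ∈ Finset.range n, ‖wfun p δ (tfun p ((k + j : ℕ) * δ) f)‖ ^ p.toReal ≤
      ∫ x in a (j + 1)..a j, ‖f x‖ ^ p.toReal := by
    intro j _
    rw [wfun_tfun p hP1 δ _ hδ]
    have e1 : Real.exp (-(((k + j : ℕ) : ℝ) * δ + δ)) = a (j + 1) := by
      rw [ha]
      simp only
      congr 1
      push_cast
      ring
    have e2 : Real.exp (-(((k + j : ℕ) : ℝ) * δ)) = a j := by rw [ha]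
    rw [e1, e2]
    exact block_bound p hp1 hp f hf δ (a (j + 1)) (a j) hδ (hapos _) (hstep j) (ha1 j)
  refine (Finset.sum_le_sum h1).trans ?_
  have h2 : ∑ j ∈ Finset.range n, ∫ x in a (j + 1)..a j, ‖f x‖ ^ p.toReal =
      ∫ x in a n..a 0, ‖f x‖ ^ p.toReal := by
    have := intervalIntegral.sum_integral_adjacent_intervals (μ := volume)
      (f := fun x => ‖f x‖ ^ p.toReal) (a := a) (n := n)
      (fun j _ => (hII j (j + 1) (Nat.le_succ j)).symm)
    rw [intervalIntegral.integral_symm, ← this, ← Finset.sum_neg_distrib]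
    apply Finset.sum_congr rfl
    intro j _
    exact intervalIntegral.integral_symm _ _
  rw [h2, intervalIntegral.integral_of_le (hanti 0 n (Nat.zero_le n))]
  have e0 : a 0 = Real.exp (-(k * δ)) := by rw [ha]; simp
  rw [e0]
  apply setIntegral_mono_set
  · apply hint.mono_set
    intro x hx
    refine ⟨hx.1.le, hx.2.trans ?_⟩
    rw [← e0]; exact ha1 0
  · exact Eventually.of_forall fun x => by positivity
  · apply LE.le.eventuallyLE
    intro x hx
    exact ⟨(hapos n).trans hx.1, hx.2⟩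

theorem norm_rpow_eq (p : ENNReal) [Fact (1 ≤ p)] (hp : p < ⊤) (f : LpI p) :
    ‖f‖ ^ p.toReal = ∫ x in Set.Icc (0 : ℝ) 1, ‖(f : ℝ → ℂ) x‖ ^ p.toReal := by
  have h1 : (1 : ENNReal) ≤ p := Fact.out
  have h0 : p ≠ 0 := (lt_of_lt_of_le one_pos h1).ne'
  have hP : 0 < p.toReal := ENNReal.toReal_pos h0 hp.ne
  have h2 := (Lp.memLp f).eLpNorm_eq_integral_rpow_norm h0 hp.ne
  have h3 : 0 ≤ ∫ x in Set.Icc (0 : ℝ) 1, ‖(f : ℝ → ℂ) x‖ ^ p.toReal :=
    integral_nonneg fun x => by positivity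
  have e : ∫ x, ‖(f : ℝ → ℂ) x‖ ^ p.toReal ∂mu =
      ∫ x in Set.Icc (0 : ℝ) 1, ‖(f : ℝ → ℂ) x‖ ^ p.toReal := rfl
  rw [Lp.norm_def, h2, e, ENNReal.toReal_ofReal (by positivity), ← Real.rpow_mul h3,
    inv_mul_cancel₀ hP.ne', Real.rpow_one]

theorem wfun_bound (p : ENNReal) [Fact (1 ≤ p)] (hp1 : 1 < p) (hp : p < ⊤) (f : LpI p)
    (δ : ℝ) (hδ : 0 < δ) : ‖wfun p δ f‖ ≤ ‖f‖ := by
  have h1 : (1 : ENNReal) ≤ p := Fact.out
  have h0 : p ≠ 0 := (lt_of_lt_of_le one_pos h1).ne'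
  have hP : 0 < p.toReal := ENNReal.toReal_pos h0 hp.ne
  rw [← Real.rpow_le_rpow_iff (norm_nonneg _) (norm_nonneg _) hP, norm_rpow_eq p hp]
  have h2 := block_bound p hp1 hp f (Lp.memLp f) δ (Real.exp (-δ)) 1 hδ (Real.exp_pos _)
    (by rw [← Real.exp_add]; simp) le_rfl
  rw [wfun_eq p δ hδ]
  refine h2.trans ?_
  rw [intervalIntegral.integral_of_le (Real.exp_le_one_iff.2 (by linarith))]
  apply setIntegral_mono_set (integrable_rpow p hp f (Lp.memLp f))
  · exact Eventually.of_forall fun x => by positivity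
  · apply LE.le.eventuallyLE
    intro x hx
    exact ⟨((Real.exp_pos _).trans hx.1).le, hx.2⟩

theorem ae_block (p : ENNReal) {f g : ℝ → ℂ} (h : f =ᵐ[mu] g) (δ : ℝ) (hδ : 0 < δ) :
    wfun p δ f = wfun p δ g := by
  rw [wfun, wfun]
  apply integral_congr_ae
  have h1 : f =ᵐ[volume.restrict (Set.Ioc (Real.exp (-δ)) 1)] g := by
    apply ae_mono _ h
    rw [mu]
    apply Measure.restrict_mono _ le_rfl
    intro x hx
    exact ⟨((Real.exp_pos _).trans hx.1).le, hx.2⟩
  filter_upwards [h1] with x hx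
  rw [hx]

/-- the functional -/
noncomputable def wL (p : ENNReal) [Fact (1 ≤ p)] (δ : ℝ) (hδ : 0 < δ) : LpI p →ₗ[ℂ] ℂ where
  toFun f := wfun p δ f
  map_add' f g := by
    rw [ae_block p (Lp.coeFn_add f g) δ hδ, wfun_eq p δ hδ, wfun_eq p δ hδ, wfun_eq p δ hδ,
      ← intervalIntegral.integral_add]
    · apply intervalIntegral.integral_congr
      intro x _
      simp only [GG, Pi.add_apply]
      ring
    · exact integrable_block p f (Lp.memLp f) δ _ _ hδ (Real.exp_pos _)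
        (Real.exp_le_one_iff.2 (by linarith)) le_rfl
    · exact integrable_block p g (Lp.memLp g) δ _ _ hδ (Real.exp_pos _)
        (Real.exp_le_one_iff.2 (by linarith)) le_rfl
  map_smul' c f := by
    rw [ae_block p (Lp.coeFn_smul c f) δ hδ, wfun_eq p δ hδ, wfun_eq p δ hδ]
    simp only [RingHom.id_apply, smul_eq_mul]
    rw [← intervalIntegral.integral_const_mul]
    apply intervalIntegral.integral_congr
    intro x _
    simp only [GG, Pi.smul_apply, smul_eq_mul]
    ring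

theorem wL_bound (p : ENNReal) [Fact (1 ≤ p)] (hp1 : 1 < p) (hp : p < ⊤) (δ : ℝ) (hδ : 0 < δ)
    (f : LpI p) : ‖wL p δ hδ f‖ ≤ 1 * ‖f‖ := by
  rw [one_mul]
  exact wfun_bound p hp1 hp f δ hδ

open Classical in
/-- the continuous functional -/
noncomputable def wC (p : ENNReal) [Fact (1 ≤ p)] (hp1 : 1 < p) (hp : p < ⊤) (δ : ℝ) :
    LpI p →L[ℂ] ℂ :=
  if hδ : 0 < δ then (wL p δ hδ).mkContinuous 1 (wL_bound p hp1 hp δ hδ) else 0

theorem WW_proved : S_WW := by
  intro p _ hp1 hp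
  refine ⟨wC p hp1 hp, ?_⟩
  intro δ hδ f
  refine ⟨?_, fun k n => sum_bound p hp1 hp f (Lp.memLp f) δ hδ k n⟩
  rw [wC, dif_pos hδ]
  rfl

end Pool.Agent.H37.HM
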